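import Pool.Agent.Q266.VG.All

/-!
# MP_215da1_al: the class 4 part of a centre-by-U variety need not be generated by rank 2

A variety of groups is given by its verbal subgroup `W ≤ F`, `F` free of countable rank (a fully
invariant subgroup). `verbal W G` is `𝔚(G)`, and `laws G` is the subgroup of all laws of `G`.
`F_k(𝔚)` is `FreeGroup (Fin k) ⧸ verbal W (FreeGroup (Fin k))`; it generates `𝔚` if and only if its
laws are the elements of `W`. `gam F c` is `γ_{c+1}(F)`, the verbal subgroup of the variety of the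
nilpotent groups of class at most `c`, and `⁅U, ⊤⁆` that of `[𝔘, 𝔈]`.
-/

set_option autoImplicit false

namespace Pool.Agent.Results.MP_215da1_al.ClassFourPart

open Pool.Agent.Q266.VG

open scoped commutatorElement

/-- The variety with the verbal subgroup `W` is generated by its free group of rank `k`. -/
def GeneratedByRank (k : ℕ) (W : Subgroup F) : Prop :=
  laws (FreeGroup (Fin k) ⧸ verbal W (FreeGroup (Fin k))) = W

/-- `W` is fully invariant, i.e. the verbal subgroup of a variety. -/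
def FullyInvariant (W : Subgroup F) : Prop := ∀ φ : F →* F, W.map φ ≤ W

/-- **Main theorem.** (1) For `U(F) = F^7 F'' γ_5(F)` (so `𝔘 ≤ 𝔑_4`) the variety `[𝔘, 𝔈]` is generated
by its free group of rank `2`, but `𝔑_4 ∧ [𝔘, 𝔈]` is not. (2) So the assertion of Q1 is false. -/
theorem result :
    (FullyInvariant U ∧ gam F 4 ≤ U ∧ GeneratedByRank 2 ⁅U, (⊤ : Subgroup F)⁆ ∧
      ¬ GeneratedByRank 2 (gam F 4 ⊔ ⁅U, (⊤ : Subgroup F)⁆)) ∧
    ¬ ∀ c k : ℕ, 1 ≤ c → 1 ≤ k → ∀ W : Subgroup F, FullyInvariant W → gam F c ≤ W →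
      GeneratedByRank k ⁅W, (⊤ : Subgroup F)⁆ →
        GeneratedByRank k (gam F c ⊔ ⁅W, (⊤ : Subgroup F)⁆) := by
  obtain ⟨h1, h2, h3, h4⟩ := final main neg
  exact ⟨⟨h1, h2, h3, h4⟩, fun h => h4 (h 4 2 (by norm_num) (by norm_num) U h1 h2 h3)⟩

end Pool.Agent.Results.MP_215da1_al.ClassFourPart
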